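import Pool.Agent.H891R2.SSI.Net

set_option autoImplicit false

open Filter Topology
open scoped ENNReal

noncomputable section

namespace Pool.Agent.Results.MP_6f70ff_gt.IntegerLine

/-- `G` is vertex transitive: its automorphism group acts transitively on the vertices. -/
def VertexTransitive {V : Type*} (G : SimpleGraph V) : Prop := ∀ u v : V, ∃ φ : G ≃g G, φ u = v

/-- the distances between distinct points of `N` are at least `k` -/
def IsSeparated {V : Type*} (G : SimpleGraph V) (k : ℕ) (N : Set V) : Prop :=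
  ∀ u ∈ N, ∀ v ∈ N, u ≠ v → k ≤ G.dist u v

/-- `N` is a `k`-net: maximal under inclusion among the `k`-separated sets of vertices -/
def IsNet {V : Type*} (G : SimpleGraph V) (k : ℕ) (N : Set V) : Prop :=
  Maximal (IsSeparated G k) N

/-- the `k`-net graph on `N`: `u ∼ v` iff `0 < d_G(u,v) ≤ 2k` -/
def netGraph {V : Type*} (G : SimpleGraph V) (k : ℕ) (N : Set V) : SimpleGraph N where
  Adj u v := 0 < G.dist u v ∧ G.dist u v ≤ 2 * k
  symm := ⟨fun u v h => by rw [G.dist_comm]; exact h⟩
  loopless := ⟨fun u h => by rw [G.dist_self] at h; exact lt_irrefl _ h.1⟩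

/-- `f` is a `C`-rough isometry between the vertex sets of `G` and `H` with their graph
distances. -/
structure IsRoughIsometry {V W : Type*} (G : SimpleGraph V) (H : SimpleGraph W) (C : ℝ)
    (f : V → W) : Prop where
  pos : 0 < C
  lower : ∀ x y, C⁻¹ * (H.dist (f x) (f y) : ℝ) - C ≤ (G.dist x y : ℝ)
  upper : ∀ x y, (G.dist x y : ℝ) ≤ C * (H.dist (f x) (f y) : ℝ) + C
  net : ∀ y, ∃ x, (H.dist (f x) y : ℝ) < C

/-- the infimum (in `[0,∞]`) of all `C > 0` for which there is a `C`-rough isometry `G → H` -/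
def roughConst {V W : Type*} (G : SimpleGraph V) (H : SimpleGraph W) : ℝ≥0∞ :=
  ⨅ (C : ℝ) (_ : ∃ f : V → W, IsRoughIsometry G H C f), ENNReal.ofReal C

/-- `G` is sub scale invariant: `C_k → 1` for every choice of the `k`-net graphs `G_k`. -/
def SubScaleInvariant {V : Type*} (G : SimpleGraph V) : Prop :=
  ∀ N : ℕ → Set V, (∀ k, 1 ≤ k → IsNet G k (N k)) →
    Tendsto (fun k => roughConst G (netGraph G k (N k))) atTop (𝓝 1)

/-- the bi-infinite path -/
def ZG : SimpleGraph ℤ where
  Adj a b := b = a + 1 ∨ a = b + 1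
  symm := ⟨fun a b h => h.symm⟩
  loopless := ⟨fun a h => by rcases h with h | h <;> omega⟩

/-- walks move by at most their length under a 1-Lipschitz function -/
theorem lip_walk {W : Type*} (H : SimpleGraph W) (φ : W → ℤ) (hφ : ∀ x y, H.Adj x y → |φ x - φ y| ≤ 1)
    {x y : W} (p : H.Walk x y) : |φ x - φ y| ≤ p.length := by
  induction p with
  | nil => simp
  | cons h p ih =>
    rename_i u v w
    have h1 := hφ _ _ h
    rw [SimpleGraph.Walk.length_cons]
    push_cast
    have h2 : φ u - φ w = (φ u - φ v) + (φ v - φ w) := by ring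
    rw [h2]
    refine (abs_add_le _ _).trans ?_
    linarith

theorem lip_dist {W : Type*} (H : SimpleGraph W) (φ : W → ℤ) (hφ : ∀ x y, H.Adj x y → |φ x - φ y| ≤ 1)
    {x y : W} (h : H.Reachable x y) : |φ x - φ y| ≤ H.dist x y := by
  obtain ⟨p, hp⟩ := h.exists_walk_length_eq_dist
  rw [← hp]
  exact lip_walk H φ hφ p

/-- a sequence of vertices with adjacent consecutive terms -/
theorem seq_walk {W : Type*} (H : SimpleGraph W) (g : ℤ → W) (hg : ∀ m, H.Adj (g m) (g (m + 1)))
    (m : ℤ) (n : ℕ) : ∃ p : H.Walk (g m) (g (m + n)), p.length = n := by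
  induction n with
  | zero => exact ⟨SimpleGraph.Walk.nil.copy rfl (by simp), by simp⟩
  | succ n ih =>
    obtain ⟨p, hp⟩ := ih
    have h := hg (m + n)
    refine ⟨(p.concat h).copy rfl (by push_cast; rw [add_assoc]), ?_⟩
    simp [hp]

theorem seq_dist {W : Type*} (H : SimpleGraph W) (g : ℤ → W) (hg : ∀ m, H.Adj (g m) (g (m + 1)))
    (φ : W → ℤ) (hφ : ∀ x y, H.Adj x y → |φ x - φ y| ≤ 1) (hφg : ∀ m, φ (g m) = m) (m n : ℤ) :
    (H.dist (g m) (g n) : ℤ) = |m - n| := by
  have key : ∀ (m : ℤ) (j : ℕ), (H.dist (g m) (g (m + j)) : ℤ) = j := by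
    intro m j
    obtain ⟨p, hp⟩ := seq_walk H g hg m j
    have h1 : H.dist (g m) (g (m + j)) ≤ j := (SimpleGraph.dist_le p).trans hp.le
    have h2 := lip_dist H φ hφ p.reachable
    rw [hφg, hφg] at h2
    have h3 : |m - (m + (j : ℤ))| = j := by
      have : m - (m + (j : ℤ)) = -(j : ℤ) := by ring
      rw [this, abs_neg, Nat.abs_cast]
    rw [h3] at h2
    have h4 : (H.dist (g m) (g (m + j)) : ℤ) ≤ j := by exact_mod_cast h1
    exact le_antisymm h4 h2
  rcases le_total m n with h | h
  · have := key m (n - m).toNat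
    have e : m + ((n - m).toNat : ℤ) = n := by omega
    rw [e] at this
    rw [this, abs_sub_comm, abs_of_nonneg (by omega)]
    omega
  · have := key n (m - n).toNat
    have e : n + ((m - n).toNat : ℤ) = m := by omega
    rw [e] at this
    rw [SimpleGraph.dist_comm, this, abs_of_nonneg (by omega)]
    omega

theorem ZG_dist (m n : ℤ) : (ZG.dist m n : ℤ) = |m - n| := by
  apply seq_dist ZG (fun m => m) (fun m => Or.inl rfl) (fun m => m) _ (fun m => rfl)
  rintro x y (h | h)
  · rw [h]; simp
  · rw [h]; simp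

theorem ZG_connected : ZG.Connected := by
  refine (SimpleGraph.connected_iff _).2 ⟨fun m n => ?_, ⟨0⟩⟩
  rcases le_total m n with h | h
  · obtain ⟨p, -⟩ := seq_walk ZG (fun m => m) (fun m => Or.inl rfl) m (n - m).toNat
    have e : m + ((n - m).toNat : ℤ) = n := by omega
    have := p.reachable
    simp only [e] at this
    exact this
  · obtain ⟨p, -⟩ := seq_walk ZG (fun m => m) (fun m => Or.inl rfl) n (m - n).toNat
    have e : n + ((m - n).toNat : ℤ) = m := by omega
    have := p.reachable
    simp only [e] at this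
    exact this.symm

theorem ZG_transitive : VertexTransitive ZG := by
  intro u v
  refine ⟨{ toEquiv := Equiv.addRight (v - u), map_rel_iff' := ?_ }, ?_⟩
  · intro a b
    simp only [Equiv.coe_addRight, ZG]
    constructor <;> rintro (h | h) <;> first | exact Or.inl (by omega) | exact Or.inr (by omega)
  · change u + (v - u) = v
    omega

theorem ZG_finite (v : ℤ) : (ZG.neighborSet v).Finite := by
  apply (Set.toFinite {v + 1, v - 1}).subset
  intro w hw
  rcases hw with h | h
  · exact Or.inl h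
  · right
    change w = v - 1
    omega

theorem isNet_ZNet {k : ℕ} (hk : 1 ≤ k) {N : Set ℤ} (h : IsNet ZG k N) :
    H891R2.SSI.ZNet (k : ℤ) N where
  hk := by exact_mod_cast hk
  sep := fun x hx y hy hxy => by
    have h1 := h.1 x hx y hy hxy.ne
    have h2 : (k : ℤ) ≤ (ZG.dist x y : ℤ) := by exact_mod_cast h1
    rw [ZG_dist, abs_sub_comm, abs_of_pos (by omega)] at h2
    omega
  mx := fun p => by
    by_contra hcon
    push Not at hcon
    have hp : p ∉ N := by
      intro hp
      have := hcon p hp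
      simp at this
      omega
    have hsep : IsSeparated ZG k (insert p N) := by
      rintro u (rfl | hu) v (rfl | hv) huv
      · exact absurd rfl huv
      · have h3 : (k : ℤ) ≤ (ZG.dist u v : ℤ) := by rw [ZG_dist]; exact hcon v hv
        exact_mod_cast h3
      · have h3 : (k : ℤ) ≤ (ZG.dist u v : ℤ) := by
          rw [ZG_dist, abs_sub_comm]; exact hcon u hu
        exact_mod_cast h3
      · exact h.1 u hu v hv huv
    have := h.2 hsep (Set.subset_insert p N) (Set.mem_insert p N)
    exact hp this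

/-- The constant `C_k` of the bi-infinite path is `1` for every `k ≥ 1` and every `k`-net. -/
theorem roughConst_ZG {k : ℕ} (hk : 1 ≤ k) {N : Set ℤ} (h : IsNet ZG k N) :
    roughConst ZG (netGraph ZG k N) = 1 := by
  obtain ⟨f, φ, hfN, hf, hφf, hφL, hd⟩ := (isNet_ZNet hk h).line
  set H := netGraph ZG k N with hH
  have hadj : ∀ x y : N, H.Adj x y ↔ x ≠ y ∧ |x.1 - y.1| ≤ 2 * (k : ℤ) := by
    intro x y
    have h1 : H.Adj x y ↔ 0 < ZG.dist x.1 y.1 ∧ ZG.dist x.1 y.1 ≤ 2 * k := Iff.rfl
    rw [h1]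
    have h2 := ZG_dist x.1 y.1
    constructor
    · rintro ⟨a, b⟩
      constructor
      · rintro rfl
        rw [SimpleGraph.dist_self] at a
        exact lt_irrefl _ a
      · rw [← h2]; exact_mod_cast b
    · rintro ⟨a, b⟩
      constructor
      · have : (0 : ℤ) < (ZG.dist x.1 y.1 : ℤ) := by
          rw [h2, abs_pos, sub_ne_zero]
          exact fun e => a (Subtype.ext e)
        exact_mod_cast this
      · rw [← h2] at b; exact_mod_cast b
  let g : ℤ → N := fun m => ⟨f m, hfN m⟩
  have hg : ∀ m, H.Adj (g m) (g (m + 1)) := by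
    intro m
    rw [hadj]
    obtain ⟨h1, h2⟩ := hf m
    refine ⟨fun e => ?_, ?_⟩
    · have : f m = f (m + 1) := congrArg Subtype.val e
      omega
    · change |f m - f (m + 1)| ≤ _
      rw [abs_sub_comm, abs_of_pos (by omega)]
      omega
  have hφ' : ∀ x y : N, H.Adj x y → |φ x.1 - φ y.1| ≤ 1 := fun x y hxy =>
    hφL x.1 x.2 y.1 y.2 ((hadj x y).1 hxy).2
  have hdist : ∀ m n : ℤ, (H.dist (g m) (g n) : ℤ) = |m - n| :=
    seq_dist H g hg (fun x => φ x.1) hφ' hφf
  have hdist' : ∀ m n : ℤ, H.dist (g m) (g n) = ZG.dist m n := by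
    intro m n
    have := hdist m n
    rw [← ZG_dist] at this
    exact_mod_cast this
  apply le_antisymm
  · -- `C_k ≤ 1`
    have hle : ∀ C : ℝ, 1 < C → roughConst ZG H ≤ ENNReal.ofReal C := by
      intro C hC
      refine iInf₂_le C ⟨g, ⟨by linarith, ?_, ?_, ?_⟩⟩
      · intro x y
        rw [hdist']
        have h1 : C⁻¹ * (ZG.dist x y : ℝ) ≤ 1 * (ZG.dist x y : ℝ) :=
          mul_le_mul_of_nonneg_right (inv_le_one_of_one_le₀ hC.le) (Nat.cast_nonneg _)
        linarith
      · intro x y
        rw [hdist']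
        have h1 : 1 * (ZG.dist x y : ℝ) ≤ C * (ZG.dist x y : ℝ) :=
          mul_le_mul_of_nonneg_right hC.le (Nat.cast_nonneg _)
        linarith
      · intro y
        obtain ⟨m, hm⟩ := hd y.1 y.2
        refine ⟨m, ?_⟩
        have h1 : H.dist (g m) y ≤ 1 := by
          by_cases e : g m = y
          · rw [e, SimpleGraph.dist_self]; exact Nat.zero_le _
          · have : H.Adj (g m) y := by
              rw [hadj]
              refine ⟨e, ?_⟩
              change |f m - y.1| ≤ _
              rw [abs_sub_comm]; exact hm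
            exact (SimpleGraph.dist_eq_one_iff_adj.2 this).le
        have h2 : (H.dist (g m) y : ℝ) ≤ 1 := by exact_mod_cast h1
        linarith
    apply ENNReal.le_of_forall_pos_le_add
    intro ε hε _
    have h1 := hle (1 + ε) (by have : (0 : ℝ) < ε := hε; linarith)
    rw [ENNReal.ofReal_add zero_le_one (NNReal.coe_nonneg ε), ENNReal.ofReal_one,
      ENNReal.ofReal_coe_nnreal] at h1
    exact h1
  · -- `1 ≤ C_k`
    refine le_iInf₂ fun C hC => ?_
    obtain ⟨F, hF⟩ := hC
    rw [ENNReal.one_le_ofReal]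
    by_contra hlt
    rw [not_le] at hlt
    have hpos := hF.pos
    have hinv : C * C⁻¹ = 1 := mul_inv_cancel₀ hpos.ne'
    -- all distances are bounded
    have hb : ∀ x y : ℤ, (ZG.dist x y : ℝ) * (1 - C ^ 2) ≤ C * (C ^ 2) + C := by
      intro x y
      have h1 := hF.lower x y
      have h2 := hF.upper x y
      set D : ℝ := (H.dist (F x) (F y) : ℝ)
      set d : ℝ := (ZG.dist x y : ℝ)
      have h3 : D ≤ C * d + C ^ 2 := by
        have := mul_le_mul_of_nonneg_left h1 hpos.le
        have e : C * (C⁻¹ * D - C) = D - C ^ 2 := by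
          rw [mul_sub, ← mul_assoc, hinv, one_mul, pow_two]
        rw [e] at this
        linarith
      have h4 := mul_le_mul_of_nonneg_left h3 hpos.le
      nlinarith
    have h1 : 0 < 1 - C ^ 2 := by nlinarith
    obtain ⟨n, hn⟩ := exists_nat_gt ((C * (C ^ 2) + C) / (1 - C ^ 2))
    have h2 := hb 0 n
    have h3 : ZG.dist 0 (n : ℤ) = n := by
      have := ZG_dist 0 (n : ℤ)
      rw [zero_sub, abs_neg, Nat.abs_cast] at this
      exact_mod_cast this
    rw [h3] at h2
    rw [div_lt_iff₀ h1] at hn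
    linarith

/-- the multiples of `k` form a `k`-net -/
theorem exists_net {k : ℕ} (hk : 1 ≤ k) : IsNet ZG k {x : ℤ | (k : ℤ) ∣ x} := by
  constructor
  · rintro u ⟨a, rfl⟩ v ⟨b, rfl⟩ huv
    have h1 : (k : ℤ) ≤ (ZG.dist ((k : ℤ) * a) ((k : ℤ) * b) : ℤ) := by
      rw [ZG_dist, ← mul_sub, abs_mul, Nat.abs_cast]
      have h2 : a - b ≠ 0 := fun h => huv (by rw [sub_eq_zero.1 h])
      have h3 : 1 ≤ |a - b| := Int.one_le_abs h2
      nlinarith
    exact_mod_cast h1
  · intro N' hN' hsub p hp
    by_contra hnd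
    have h1 := Int.emod_add_mul_ediv p k
    have h2 := Int.emod_nonneg p (by omega : (k : ℤ) ≠ 0)
    have h3 := Int.emod_lt_of_pos p (by omega : (0 : ℤ) < k)
    have h4 : (k : ℤ) * (p / k) ∈ N' := hsub ⟨p / k, rfl⟩
    have h5 := hN' p hp _ h4 (fun h => hnd ⟨p / k, h⟩)
    have h6 : (k : ℤ) ≤ (ZG.dist p ((k : ℤ) * (p / k)) : ℤ) := by exact_mod_cast h5
    rw [ZG_dist, show p - (k : ℤ) * (p / k) = p % k by linarith, abs_of_nonneg h2] at h6
    omega

/-- There is a vertex transitive (infinite, connected, locally finite) graph that is sub scale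
invariant. -/
theorem result : ∃ (V : Type) (G : SimpleGraph V), Infinite V ∧ G.Connected ∧
    (∀ v, (G.neighborSet v).Finite) ∧ VertexTransitive G ∧ (∀ k, 1 ≤ k → ∃ N, IsNet G k N) ∧
    SubScaleInvariant G := by
  refine ⟨ℤ, ZG, inferInstance, ZG_connected, ZG_finite, ZG_transitive,
    fun k hk => ⟨_, exists_net hk⟩, ?_⟩
  intro N hN
  apply tendsto_const_nhds.congr'
  filter_upwards [eventually_ge_atTop 1] with k hk
  exact (roughConst_ZG hk (hN k hk)).symm

end Pool.Agent.Results.MP_6f70ff_gt.IntegerLine
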